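import Mathlib

set_option autoImplicit false

/-!
Small values of one polynomial at integers, with respect to finitely many places of `ℚ`.
-/

namespace Pool.Agent.H951R3.W

open Polynomial

lemma pow_card_le_prod' (s : Multiset ℝ) {m : ℝ} (hm : 0 ≤ m) (h : ∀ x ∈ s, m ≤ x) :
    m ^ (Multiset.card s) ≤ s.prod := by
  induction s using Multiset.induction_on with
  | empty => simp
  | cons a s ih =>
    rw [Multiset.card_cons, Multiset.prod_cons, pow_succ']
    have h1 := ih fun x hx => h x (Multiset.mem_cons_of_mem hx)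
    have h2 := h a (Multiset.mem_cons_self a s)
    exact mul_le_mul h2 h1 (by positivity) (hm.trans h2)

lemma norm_multiset_prod {L : Type*} [NormedField L] (s : Multiset L) :
    ‖s.prod‖ = (s.map (fun x => ‖x‖)).prod := by
  induction s using Multiset.induction_on with
  | empty => simp
  | cons a s ih => rw [Multiset.prod_cons, norm_mul, ih, Multiset.map_cons, Multiset.prod_cons]

/-- nearest roots -/
lemma exists_idx {L : Type*} [NormedField L] [IsAlgClosed L] (φ : ℚ →+* L) (f : ℚ[X]) {d : ℕ}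
    (hd : 1 ≤ d) (hf : f.natDegree = d) :
    ∃ idx : ℤ → Fin d, ∀ t t' : ℤ, idx t = idx t' →
      ∀ b : ℝ, ‖φ (f.eval (t : ℚ))‖ ≤ b → ‖φ (f.eval (t' : ℚ))‖ ≤ b →
        ‖φ ((t - t' : ℤ) : ℚ)‖ ^ d * ‖φ f.leadingCoeff‖ ≤ 2 ^ d * b := by
  classical
  have hf0 : f ≠ 0 := by
    rintro rfl
    simp at hf
    omega
  set g : L[X] := f.map φ with hg
  have hg0 : g ≠ 0 := (Polynomial.map_ne_zero_iff φ.injective).mpr hf0
  have hsplit : g.Splits := IsAlgClosed.splits g
  have hcard : Multiset.card g.roots = d := by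
    rw [← hf, ← Polynomial.natDegree_map (f := φ) (p := f)]
    exact hsplit.natDegree_eq_card_roots.symm
  have hlead : g.leadingCoeff = φ f.leadingCoeff := Polynomial.leadingCoeff_map φ
  have hprod : ∀ t : ℤ, ‖φ (f.eval (t : ℚ))‖ =
      ‖φ f.leadingCoeff‖ * (g.roots.map (fun r => ‖φ (t : ℚ) - r‖)).prod := by
    intro t
    have h1 : φ (f.eval (t : ℚ)) = g.eval (φ (t : ℚ)) := by
      rw [hg, Polynomial.eval_map, Polynomial.eval₂_hom]
    rw [h1]
    conv_lhs => rw [hsplit.eq_prod_roots]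
    rw [Polynomial.eval_mul, Polynomial.eval_C, Polynomial.eval_multiset_prod, Multiset.map_map,
      norm_mul, hlead, norm_multiset_prod, Multiset.map_map]
    congr 2
    refine Multiset.map_congr rfl fun r _ => ?_
    simp
  -- choice of a nearest root
  have hnear : ∀ t : ℤ, ∃ r ∈ g.roots.toFinset,
      ‖φ (t : ℚ) - r‖ ^ d * ‖φ f.leadingCoeff‖ ≤ ‖φ (f.eval (t : ℚ))‖ := by
    intro t
    have hne : g.roots.toFinset.Nonempty := by
      rw [Finset.nonempty_iff_ne_empty, Ne, Multiset.toFinset_eq_empty]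
      intro h
      rw [h] at hcard
      simp at hcard
      omega
    obtain ⟨r, hr, hmin⟩ := Finset.exists_min_image g.roots.toFinset
      (fun r => ‖φ (t : ℚ) - r‖) hne
    refine ⟨r, hr, ?_⟩
    rw [hprod t, mul_comm]
    refine mul_le_mul_of_nonneg_left ?_ (norm_nonneg _)
    have h2 := pow_card_le_prod' (g.roots.map (fun r => ‖φ (t : ℚ) - r‖))
      (m := ‖φ (t : ℚ) - r‖) (norm_nonneg _) ?_
    · rwa [Multiset.card_map, hcard] at h2
    · intro x hx
      obtain ⟨r', hr', rfl⟩ := Multiset.mem_map.mp hx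
      exact hmin r' (Multiset.mem_toFinset.mpr hr')
  choose R hR hRle using hnear
  have hcardR : g.roots.toFinset.card ≤ d := by
    rw [← hcard]; exact Multiset.toFinset_card_le _
  set ι := g.roots.toFinset.equivFin with hι
  refine ⟨fun t => Fin.castLE hcardR (ι ⟨R t, hR t⟩), fun t t' htt b hb hb' => ?_⟩
  have h3 : R t = R t' := by
    have h4 := Fin.castLE_injective hcardR htt
    have h5 := ι.injective h4
    exact congrArg Subtype.val h5
  have hb0 : 0 ≤ b := (norm_nonneg _).trans hb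
  set A := ‖φ (t : ℚ) - R t‖ with hA
  set A' := ‖φ (t' : ℚ) - R t‖ with hA'
  have e1 : A ^ d * ‖φ f.leadingCoeff‖ ≤ b := (hRle t).trans hb
  have e2 : A' ^ d * ‖φ f.leadingCoeff‖ ≤ b := by
    have := (hRle t').trans hb'
    rw [← h3] at this
    exact this
  have e3 : ‖φ ((t - t' : ℤ) : ℚ)‖ ≤ A + A' := by
    have e4 : φ ((t - t' : ℤ) : ℚ) = (φ (t : ℚ) - R t) - (φ (t' : ℚ) - R t) := by
      push_cast
      rw [map_sub]
      ring
    rw [e4]
    exact norm_sub_le _ _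
  have e5 : ‖φ ((t - t' : ℤ) : ℚ)‖ ≤ 2 * max A A' := by
    have := le_max_left A A'
    have := le_max_right A A'
    linarith
  have hl0 : 0 ≤ ‖φ f.leadingCoeff‖ := norm_nonneg _
  calc ‖φ ((t - t' : ℤ) : ℚ)‖ ^ d * ‖φ f.leadingCoeff‖
      ≤ (2 * max A A') ^ d * ‖φ f.leadingCoeff‖ :=
        mul_le_mul_of_nonneg_right (pow_le_pow_left₀ (norm_nonneg _) e5 d) hl0
    _ = 2 ^ d * ((max A A') ^ d * ‖φ f.leadingCoeff‖) := by rw [mul_pow]; ring
    _ ≤ 2 ^ d * b := by
        refine mul_le_mul_of_nonneg_left ?_ (by positivity)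
        rcases max_choice A A' with h | h
        · rw [h]; exact e1
        · rw [h]; exact e2

/-- the archimedean case -/
lemma idx_inf (f : ℚ[X]) {d : ℕ} (hd : 1 ≤ d) (hf : f.natDegree = d) :
    ∃ idx : ℤ → Fin d, ∀ t t' : ℤ, idx t = idx t' →
      ∀ b : ℝ, |((f.eval (t : ℚ) : ℚ) : ℝ)| ≤ b → |((f.eval (t' : ℚ) : ℚ) : ℝ)| ≤ b →
        |((t - t' : ℤ) : ℝ)| ^ d * |(f.leadingCoeff : ℝ)| ≤ 2 ^ d * b := by
  obtain ⟨idx, h⟩ := exists_idx (L := ℂ) (algebraMap ℚ ℂ) f hd hf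
  have hn : ∀ q : ℚ, ‖algebraMap ℚ ℂ q‖ = |(q : ℝ)| := by
    intro q
    rw [eq_ratCast, ← Complex.ofReal_ratCast, Complex.norm_real, Real.norm_eq_abs]
  refine ⟨idx, fun t t' htt b hb hb' => ?_⟩
  have := h t t' htt b (by rw [hn]; exact hb) (by rw [hn]; exact hb')
  rw [hn, hn] at this
  have e : (((t - t' : ℤ) : ℚ) : ℝ) = ((t - t' : ℤ) : ℝ) := by push_cast; ring
  rwa [e] at this

/-- the `p`-adic case -/
lemma idx_p (p : ℕ) (hp : p.Prime) (f : ℚ[X]) {d : ℕ} (hd : 1 ≤ d) (hf : f.natDegree = d) :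
    ∃ idx : ℤ → Fin d, ∀ t t' : ℤ, idx t = idx t' →
      ∀ b : ℝ, (padicNorm p (f.eval (t : ℚ)) : ℝ) ≤ b → (padicNorm p (f.eval (t' : ℚ)) : ℝ) ≤ b →
        (padicNorm p ((t - t' : ℤ) : ℚ) : ℝ) ^ d * (padicNorm p f.leadingCoeff : ℝ) ≤
          2 ^ d * b := by
  have : Fact p.Prime := ⟨hp⟩
  obtain ⟨idx, h⟩ := exists_idx (L := PadicAlgCl p)
    ((algebraMap ℚ_[p] (PadicAlgCl p)).comp (algebraMap ℚ ℚ_[p])) f hd hf
  have hn : ∀ q : ℚ, ‖((algebraMap ℚ_[p] (PadicAlgCl p)).comp (algebraMap ℚ ℚ_[p])) q‖ =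
      (padicNorm p q : ℝ) := by
    intro q
    rw [RingHom.comp_apply, eq_ratCast (algebraMap ℚ ℚ_[p]) q]
    have h1 := PadicAlgCl.norm_extends p (q : ℚ_[p])
    rw [← Padic.eq_padicNorm q, ← h1]
  refine ⟨idx, fun t t' htt b hb hb' => ?_⟩
  have := h t t' htt b (by rw [hn]; exact hb) (by rw [hn]; exact hb')
  rwa [hn, hn] at this

/-- an integer is at least its `S`-part -/
lemma prod_padic_int (S : Finset ℕ) (hS : ∀ p ∈ S, p.Prime) (n : ℤ) (hn : n ≠ 0) :
    1 ≤ |(n : ℝ)| * ∏ p ∈ S, (padicNorm p (n : ℚ) : ℝ) := by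
  classical
  have h1 : ∏ p ∈ S, p ^ (n.natAbs.factorization p) ∣ n.natAbs := by
    have hn0 : n.natAbs ≠ 0 := Int.natAbs_ne_zero.mpr hn
    have h2 : ∏ p ∈ n.natAbs.primeFactors, p ^ (n.natAbs.factorization p) = n.natAbs :=
      Nat.prod_factorization_pow_eq_self hn0
    conv_rhs => rw [← h2]
    have h3 : ∏ p ∈ S, p ^ (n.natAbs.factorization p) =
        ∏ p ∈ S.filter (fun p => p ∈ n.natAbs.primeFactors), p ^ (n.natAbs.factorization p) := by
      rw [Finset.prod_filter]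
      refine Finset.prod_congr rfl fun p _ => ?_
      split_ifs with h
      · rfl
      · rw [← Nat.support_factorization, Finsupp.notMem_support_iff] at h
        rw [h, pow_zero]
    rw [h3]
    exact Finset.prod_dvd_prod_of_subset _ _ _ fun p hp => (Finset.mem_filter.mp hp).2
  have h4 : ∀ p ∈ S, (padicNorm p (n : ℚ) : ℝ) = ((p : ℝ) ^ (n.natAbs.factorization p))⁻¹ := by
    intro p hp
    have : Fact p.Prime := ⟨hS p hp⟩
    have hnq : (n : ℚ) ≠ 0 := by exact_mod_cast hn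
    rw [padicNorm.eq_zpow_of_nonzero hnq, padicValRat.of_int]
    push_cast
    rw [zpow_neg, zpow_natCast, padicValInt, Nat.factorization_def _ (hS p hp)]
  rw [Finset.prod_congr rfl h4, Finset.prod_inv_distrib]
  have hpos : (0 : ℝ) < ∏ p ∈ S, (p : ℝ) ^ (n.natAbs.factorization p) :=
    Finset.prod_pos fun p hp => by
      have : (0 : ℝ) < p := by exact_mod_cast (hS p hp).pos
      positivity
  rw [← div_eq_mul_inv, le_div_iff₀ hpos, one_mul]
  have h5 : ∏ p ∈ S, p ^ (n.natAbs.factorization p) ≤ n.natAbs :=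
    Nat.le_of_dvd (Int.natAbs_pos.mpr hn) h1
  have h6 : ((∏ p ∈ S, p ^ (n.natAbs.factorization p) : ℕ) : ℝ) ≤ (n.natAbs : ℝ) := by
    exact_mod_cast h5
  push_cast at h6
  refine h6.trans (le_of_eq ?_)
  rw [Nat.cast_natAbs]
  push_cast
  rfl

/-- separated reals in an interval -/
lemma card_sep (T : Finset ℤ) {g L : ℝ} (hg : 0 < g) (hL : 0 ≤ L)
    (h : ∀ t ∈ T, ∀ t' ∈ T, t ≠ t' → g ≤ |((t - t' : ℤ) : ℝ)| ∧ |((t - t' : ℤ) : ℝ)| ≤ L) :
    (T.card : ℝ) ≤ 1 + L / g := by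
  classical
  rcases T.eq_empty_or_nonempty with rfl | hne
  · simp only [Finset.card_empty, Nat.cast_zero]
    positivity
  set m := T.min' hne with hm
  have hmT : m ∈ T := T.min'_mem hne
  -- map `t ↦ ⌊(t - m) / g⌋` is injective into `0..⌊L / g⌋`
  have hmap : T.card ≤ (Finset.range (⌊L / g⌋₊ + 1)).card := by
    refine Finset.card_le_card_of_injOn (fun t => ⌊((t - m : ℤ) : ℝ) / g⌋₊) ?_ ?_
    · intro t ht
      rw [Finset.mem_coe, Finset.mem_range]
      have h0 : m ≤ t := T.min'_le t ht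
      have h1 : ((t - m : ℤ) : ℝ) ≤ L := by
        by_cases htm : t = m
        · rw [htm]; simpa using hL
        · exact (le_abs_self _).trans (h t ht m hmT htm).2
      refine Nat.lt_succ_of_le (Nat.floor_le_floor ?_)
      exact div_le_div_of_nonneg_right h1 hg.le
    · intro t ht t' ht' htt
      by_contra hne'
      have h0 : m ≤ t := T.min'_le t ht
      have h0' : m ≤ t' := T.min'_le t' ht'
      have h1 := (h t ht t' ht' hne').1
      have ha : (0 : ℝ) ≤ ((t - m : ℤ) : ℝ) / g := by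
        refine div_nonneg ?_ hg.le
        exact_mod_cast (by omega : (0 : ℤ) ≤ t - m)
      have hb : (0 : ℝ) ≤ ((t' - m : ℤ) : ℝ) / g := by
        refine div_nonneg ?_ hg.le
        exact_mod_cast (by omega : (0 : ℤ) ≤ t' - m)
      have h2 := Nat.floor_le ha
      have h3 := Nat.lt_floor_add_one (((t - m : ℤ) : ℝ) / g)
      have h4 := Nat.floor_le hb
      have h5 := Nat.lt_floor_add_one (((t' - m : ℤ) : ℝ) / g)
      simp only at htt
      rw [htt] at h2 h3
      have h6 : |((t - m : ℤ) : ℝ) / g - ((t' - m : ℤ) : ℝ) / g| < 1 := by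
        rw [abs_lt]; constructor <;> linarith
      have h7 : ((t - m : ℤ) : ℝ) / g - ((t' - m : ℤ) : ℝ) / g = ((t - t' : ℤ) : ℝ) / g := by
        push_cast; ring
      rw [h7, abs_div, abs_of_pos hg, div_lt_one hg] at h6
      linarith
  rw [Finset.card_range] at hmap
  have h8 : (T.card : ℝ) ≤ ((⌊L / g⌋₊ + 1 : ℕ) : ℝ) := by exact_mod_cast hmap
  push_cast at h8
  have h9 := Nat.floor_le (show 0 ≤ L / g by positivity)
  linarith

end Pool.Agent.H951R3.W
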