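import Pool.Agent.H951R3.W.W1

set_option autoImplicit false

/-!
Counting integers `t` for which `f t` is small with respect to `S` and the real place.
-/

namespace Pool.Agent.H951R3.W

open Polynomial

lemma padicNorm_pos' (p : ℕ) (hp : p.Prime) {q : ℚ} (hq : q ≠ 0) :
    (0 : ℝ) < (padicNorm p q : ℝ) := by
  have : Fact p.Prime := ⟨hp⟩
  have h1 : padicNorm p q ≠ 0 := padicNorm.nonzero hq
  have h2 := padicNorm.nonneg (p := p) q
  exact_mod_cast lt_of_le_of_ne h2 (Ne.symm h1)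

lemma line_count (S : Finset ℕ) (hS : ∀ p ∈ S, p.Prime) {d : ℕ} (hd : 1 ≤ d) {a : ℚ}
    (ha : a ≠ 0) :
    ∃ C : ℝ, 0 < C ∧ ∀ (f : ℚ[X]), f.natDegree = d → f.leadingCoeff = a →
      ∀ (T : ℝ) (V : ℕ), 0 ≤ T → ∀ 𝒯 : Finset ℤ,
        (∀ t ∈ 𝒯, f.eval (t : ℚ) ≠ 0) →
        (∀ t ∈ 𝒯, |((f.eval (t : ℚ) : ℚ) : ℝ)| * ∏ p ∈ S, (padicNorm p (f.eval (t : ℚ)) : ℝ) ≤ T) →
        (∀ t ∈ 𝒯, ∀ p ∈ S, |padicValRat p (f.eval (t : ℚ))| ≤ V) →
        (𝒯.card : ℝ) ≤ C * (2 * V + 1) ^ S.card * (1 + T ^ ((1 : ℝ) / d)) := by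
  classical
  have haR : (0 : ℝ) < |(a : ℝ)| := abs_pos.mpr (by exact_mod_cast ha)
  set AS : ℝ := ∏ p ∈ S, (padicNorm p a : ℝ) with hAS
  have hAS0 : 0 < AS := Finset.prod_pos fun p hp => padicNorm_pos' p (hS p hp) ha
  have hdR : (0 : ℝ) < d := by exact_mod_cast hd
  set s : ℕ := S.card with hs
  set A1 : ℝ := (|(a : ℝ)| * AS) ^ ((1 : ℝ) / d) with hA1
  have hA10 : 0 < A1 := Real.rpow_pos_of_pos (by positivity) _
  refine ⟨(d : ℝ) * d ^ s * (1 + 2 ^ (s + 1) / A1), by positivity,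
    fun f hf hfa T V hT 𝒯 hne hsm hval => ?_⟩
  obtain ⟨i0, hi0⟩ := idx_inf f hd hf
  have hidx : ∀ p : S, ∃ idx : ℤ → Fin d, ∀ t t' : ℤ, idx t = idx t' →
      ∀ b : ℝ, (padicNorm p (f.eval (t : ℚ)) : ℝ) ≤ b → (padicNorm p (f.eval (t' : ℚ)) : ℝ) ≤ b →
        (padicNorm p ((t - t' : ℤ) : ℚ) : ℝ) ^ d * (padicNorm p f.leadingCoeff : ℝ) ≤
          2 ^ d * b := fun p => idx_p p.1 (hS p.1 p.2) f hd hf
  choose ip hip using hidx
  set cls : ℤ → (Fin d × (S → Fin d)) × (S → ℤ) := fun t =>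
    ((i0 t, fun p => ip p t), fun p => padicValRat p.1 (f.eval (t : ℚ))) with hcls
  set tgt : Finset ((Fin d × (S → Fin d)) × (S → ℤ)) :=
    Finset.univ ×ˢ Fintype.piFinset (fun _ : S => Finset.Icc (-(V : ℤ)) V) with htgt
  have hmaps : ∀ t ∈ 𝒯, cls t ∈ tgt := by
    intro t ht
    rw [htgt, Finset.mem_product]
    refine ⟨Finset.mem_univ _, ?_⟩
    rw [Fintype.mem_piFinset]
    intro p
    rw [Finset.mem_Icc]
    exact abs_le.mp (hval t ht p.1 p.2)
  set M : ℕ := ⌊1 + 2 ^ (s + 1) / A1 * T ^ ((1 : ℝ) / d)⌋₊ with hM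
  have hTd : 0 ≤ T ^ ((1 : ℝ) / d) := Real.rpow_nonneg hT _
  have hfib : ∀ b ∈ tgt, (𝒯.filter (fun t => cls t = b)).card ≤ M := by
    intro b _
    refine Nat.le_floor ?_
    rcases (𝒯.filter (fun t => cls t = b)).eq_empty_or_nonempty with h0 | ⟨t₀, ht₀⟩
    · rw [h0, Finset.card_empty, Nat.cast_zero]
      positivity
    rw [Finset.mem_filter] at ht₀
    -- common data
    set e : S → ℤ := b.2 with he
    have hnorm : ∀ t ∈ 𝒯.filter (fun t => cls t = b), ∀ p : S,
        (padicNorm p (f.eval (t : ℚ)) : ℝ) = ((p : ℕ) : ℝ) ^ (-(e p)) := by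
      intro t ht p
      rw [Finset.mem_filter] at ht
      have h1 : padicValRat p.1 (f.eval (t : ℚ)) = e p := by
        rw [he, ← ht.2]
      have : Fact (p : ℕ).Prime := ⟨hS p.1 p.2⟩
      rw [padicNorm.eq_zpow_of_nonzero (hne t ht.1), h1]
      push_cast
      rfl
    set E : ℝ := ∏ p : S, ((p : ℕ) : ℝ) ^ (e p) with hE
    have hppos : ∀ p : S, (0 : ℝ) < ((p : ℕ) : ℝ) := fun p => by
      exact_mod_cast (hS p.1 p.2).pos
    have hE0 : 0 < E := Finset.prod_pos fun p _ => zpow_pos (hppos p) _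
    have hinf : ∀ t ∈ 𝒯.filter (fun t => cls t = b),
        |((f.eval (t : ℚ) : ℚ) : ℝ)| ≤ T * E := by
      intro t ht
      have h1 := hsm t (Finset.mem_filter.mp ht).1
      have h2 : ∏ p ∈ S, (padicNorm p (f.eval (t : ℚ)) : ℝ) = E⁻¹ := by
        rw [← Finset.prod_coe_sort S (fun p => (padicNorm p (f.eval (t : ℚ)) : ℝ)), hE,
          ← Finset.prod_inv_distrib]
        refine Finset.prod_congr rfl fun p _ => ?_
        rw [hnorm t ht p, zpow_neg]
      rw [h2, ← div_eq_mul_inv, div_le_iff₀ hE0] at h1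
      exact h1
    set L : ℝ := 2 * (T * E / |(a : ℝ)|) ^ ((1 : ℝ) / d) with hL
    set g : ℝ := (E * AS) ^ ((1 : ℝ) / d) / 2 ^ s with hg
    have hg0 : 0 < g := by positivity
    have hL0 : 0 ≤ L := by positivity
    have hpow : ∀ x : ℝ, 0 ≤ x → (x ^ ((1 : ℝ) / d)) ^ d = x := by
      intro x hx
      rw [← Real.rpow_natCast, ← Real.rpow_mul hx, one_div, inv_mul_cancel₀ hdR.ne', Real.rpow_one]
    have hsep := card_sep (𝒯.filter (fun t => cls t = b)) hg0 hL0 ?_
    · refine hsep.trans (le_of_eq ?_)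
      congr 1
      rw [hL, hg, hA1]
      rw [Real.div_rpow (by positivity) (by positivity), Real.mul_rpow hT hE0.le,
        Real.mul_rpow hE0.le hAS0.le, Real.mul_rpow (by positivity) hAS0.le]
      have h1 : (0 : ℝ) < E ^ ((1 : ℝ) / d) := Real.rpow_pos_of_pos hE0 _
      have h2 : (0 : ℝ) < AS ^ ((1 : ℝ) / d) := Real.rpow_pos_of_pos hAS0 _
      have h3 : (0 : ℝ) < |(a : ℝ)| ^ ((1 : ℝ) / d) := Real.rpow_pos_of_pos haR _
      rw [pow_succ]
      field_simp
    · intro t ht t' ht' htt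
      have hc : cls t = cls t' :=
        (Finset.mem_filter.mp ht).2.trans (Finset.mem_filter.mp ht').2.symm
      have hc1 : i0 t = i0 t' := congrArg (fun z => z.1.1) hc
      have hc2 : ∀ p, ip p t = ip p t' := fun p => congrFun (congrArg (fun z => z.1.2) hc) p
      have hn0 : t - t' ≠ 0 := sub_ne_zero.mpr htt
      have h1 := hi0 t t' hc1 (T * E) (hinf t ht) (hinf t' ht')
      rw [hfa] at h1
      have hup : |((t - t' : ℤ) : ℝ)| ≤ L := by
        refine le_of_pow_le_pow_left₀ (by omega : d ≠ 0) hL0 ?_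
        rw [hL, mul_pow, hpow _ (by positivity)]
        rw [← mul_div_assoc, le_div_iff₀ haR]
        exact h1
      refine ⟨?_, hup⟩
      -- lower bound
      have h2 : ∀ p : S, (padicNorm p ((t - t' : ℤ) : ℚ) : ℝ) ^ d * (padicNorm p a : ℝ) ≤
          2 ^ d * ((p : ℕ) : ℝ) ^ (-(e p)) := by
        intro p
        have := hip p t t' (hc2 p) (((p : ℕ) : ℝ) ^ (-(e p))) (hnorm t ht p).le (hnorm t' ht' p).le
        rwa [hfa] at this
      have h3 : (∏ p : S, (padicNorm p ((t - t' : ℤ) : ℚ) : ℝ)) ^ d * AS ≤ (2 ^ s) ^ d * E⁻¹ := by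
        have h4 : AS = ∏ p : S, (padicNorm p a : ℝ) :=
          (Finset.prod_coe_sort S (fun p => (padicNorm p a : ℝ))).symm
        rw [h4, ← Finset.prod_pow, ← Finset.prod_mul_distrib]
        have h5 : ((2 : ℝ) ^ s) ^ d * E⁻¹ = ∏ p : S, (2 ^ d * ((p : ℕ) : ℝ) ^ (-(e p))) := by
          rw [Finset.prod_mul_distrib, Finset.prod_const, Finset.card_univ, Fintype.card_coe,
            ← pow_mul, ← pow_mul, mul_comm s d, hE, ← Finset.prod_inv_distrib]
          congr 1
          exact Finset.prod_congr rfl fun p _ => (zpow_neg _ _).symm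
        rw [h5]
        refine Finset.prod_le_prod (fun p _ => ?_) fun p _ => h2 p
        have := padicNorm_pos' p.1 (hS p.1 p.2) (q := ((t - t' : ℤ) : ℚ)) (by exact_mod_cast hn0)
        have h6 := padicNorm_pos' p.1 (hS p.1 p.2) ha
        positivity
      have h7 := prod_padic_int S hS (t - t') hn0
      rw [← Finset.prod_coe_sort S (fun p => (padicNorm p ((t - t' : ℤ) : ℚ) : ℝ))] at h7
      set Q0 : ℝ := ∏ p : S, (padicNorm p ((t - t' : ℤ) : ℚ) : ℝ) with hQ0
      have hQ00 : 0 < Q0 := Finset.prod_pos fun p _ =>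
        padicNorm_pos' p.1 (hS p.1 p.2) (by exact_mod_cast hn0)
      have h8 : Q0 * g ≤ 1 := by
        refine le_of_pow_le_pow_left₀ (by omega : d ≠ 0) zero_le_one ?_
        rw [one_pow, mul_pow, hg, div_pow, hpow _ (by positivity)]
        have h9 : Q0 ^ d * (E * AS / (2 ^ s) ^ d) = (Q0 ^ d * AS) * (E / (2 ^ s) ^ d) := by ring
        rw [h9]
        calc (Q0 ^ d * AS) * (E / (2 ^ s) ^ d) ≤ ((2 ^ s) ^ d * E⁻¹) * (E / (2 ^ s) ^ d) :=
              mul_le_mul_of_nonneg_right h3 (by positivity)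
          _ = 1 := by field_simp
      have h10 : 0 ≤ |((t - t' : ℤ) : ℝ)| := abs_nonneg _
      nlinarith
  have hcard := Finset.card_le_mul_card_image_of_maps_to (s := 𝒯) (t := tgt) (f := cls) hmaps M hfib
  have hct : tgt.card = (d * d ^ s) * (2 * V + 1) ^ s := by
    rw [htgt, Finset.card_product, Finset.card_univ, Fintype.card_prod, Fintype.card_fun,
      Fintype.card_fin, Fintype.card_coe, Fintype.card_piFinset, Finset.prod_const,
      Finset.card_univ, Fintype.card_coe, Int.card_Icc]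
    congr 2
    omega
  rw [hct] at hcard
  have hMle : (M : ℝ) ≤ 1 + 2 ^ (s + 1) / A1 * T ^ ((1 : ℝ) / d) :=
    Nat.floor_le (by positivity)
  have h11 : (𝒯.card : ℝ) ≤ M * ((d * d ^ s) * (2 * V + 1) ^ s) := by exact_mod_cast hcard
  refine h11.trans ?_
  calc (M : ℝ) * ((d * d ^ s) * (2 * V + 1) ^ s)
      ≤ (1 + 2 ^ (s + 1) / A1 * T ^ ((1 : ℝ) / d)) * ((d * d ^ s) * (2 * V + 1) ^ s) :=
        mul_le_mul_of_nonneg_right hMle (by positivity)
    _ ≤ ((1 + 2 ^ (s + 1) / A1) * (1 + T ^ ((1 : ℝ) / d))) * ((d * d ^ s) * (2 * V + 1) ^ s) := by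
        refine mul_le_mul_of_nonneg_right ?_ (by positivity)
        have : 0 ≤ (2 : ℝ) ^ (s + 1) / A1 := by positivity
        nlinarith
    _ = (d : ℝ) * d ^ s * (1 + 2 ^ (s + 1) / A1) * (2 * V + 1) ^ s *
        (1 + T ^ ((1 : ℝ) / d)) := by ring

/-- product of polynomials of bounded degree -/
lemma coeff_prod_le {ι : Type*} [DecidableEq ι] (s : Finset ι) (f : ι → ℚ[X]) (n : ι → ℕ)
    (h : ∀ i ∈ s, (f i).natDegree ≤ n i) :
    (∏ i ∈ s, f i).natDegree ≤ ∑ i ∈ s, n i ∧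
      (∏ i ∈ s, f i).coeff (∑ i ∈ s, n i) = ∏ i ∈ s, (f i).coeff (n i) := by
  induction s using Finset.induction_on with
  | empty => simp
  | insert a s ha ih =>
    obtain ⟨h1, h2⟩ := ih fun i hi => h i (Finset.mem_insert_of_mem hi)
    have h3 := h a (Finset.mem_insert_self a s)
    rw [Finset.prod_insert ha, Finset.sum_insert ha, Finset.prod_insert ha]
    refine ⟨Polynomial.natDegree_mul_le_of_le h3 h1, ?_⟩
    rw [Polynomial.coeff_mul_add_eq_of_natDegree_le h3 h1, h2]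

/-- restriction of a form to a line -/
noncomputable def lineP {n : ℕ} (F : MvPolynomial (Fin n) ℚ) (y w : Fin n → ℚ) : ℚ[X] :=
  MvPolynomial.aeval (fun i => C (w i) * X + C (y i)) F

lemma eval_lineP {n : ℕ} (F : MvPolynomial (Fin n) ℚ) (y w : Fin n → ℚ) (t : ℚ) :
    (lineP F y w).eval t = MvPolynomial.eval (fun i => y i + t * w i) F := by
  unfold lineP
  have h : (MvPolynomial.aeval (fun i => C (w i) * X + C (y i)) F : ℚ[X]).eval t =
      (Polynomial.evalRingHom t) (MvPolynomial.aeval (fun i => C (w i) * X + C (y i)) F) := rfl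
  rw [h, MvPolynomial.aeval_def, MvPolynomial.hom_eval₂]
  rw [← MvPolynomial.eval₂_id]
  congr 1
  · ext; simp
  · funext i
    simp
    ring

lemma lineP_degree {n d : ℕ} (F : MvPolynomial (Fin n) ℚ) (hF : F.IsHomogeneous d)
    (y w : Fin n → ℚ) :
    (lineP F y w).natDegree ≤ d ∧ (lineP F y w).coeff d = MvPolynomial.eval w F := by
  classical
  have hexp : lineP F y w = ∑ m ∈ F.support,
      C (F.coeff m) * ∏ i, (C (w i) * X + C (y i)) ^ (m i) := by
    unfold lineP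
    rw [MvPolynomial.aeval_def, MvPolynomial.eval₂_eq']
    rfl
  have hterm : ∀ m ∈ F.support,
      (∏ i, (C (w i) * X + C (y i)) ^ (m i)).natDegree ≤ d ∧
      (∏ i, (C (w i) * X + C (y i)) ^ (m i)).coeff d = ∏ i, (w i) ^ (m i) := by
    intro m hm
    have hdeg : ∑ i, m i = d := by
      have h1 := hF (MvPolynomial.mem_support_iff.mp hm)
      rw [← h1]
      simp [Finsupp.weight, Finsupp.linearCombination, Finsupp.sum_fintype]
    have h2 := coeff_prod_le Finset.univ (fun i => (C (w i) * X + C (y i)) ^ (m i)) (fun i => m i)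
      fun i _ => by
        refine (Polynomial.natDegree_pow_le).trans ?_
        have : (C (w i) * X + C (y i)).natDegree ≤ 1 := Polynomial.natDegree_linear_le
        nlinarith
    rw [hdeg] at h2
    refine ⟨h2.1, h2.2.trans ?_⟩
    refine Finset.prod_congr rfl fun i _ => ?_
    have h3 := Polynomial.coeff_pow_of_natDegree_le (p := C (w i) * X + C (y i)) (n := 1) (m := m i)
      Polynomial.natDegree_linear_le
    rw [mul_one] at h3
    rw [h3]
    simp
  rw [hexp]
  constructor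
  · refine Polynomial.natDegree_sum_le_of_forall_le _ _ fun m hm => ?_
    exact (Polynomial.natDegree_C_mul_le _ _).trans (hterm m hm).1
  · rw [Polynomial.finsetSum_coeff, MvPolynomial.eval_eq']
    refine Finset.sum_congr rfl fun m hm => ?_
    rw [Polynomial.coeff_C_mul, (hterm m hm).2]

end Pool.Agent.H951R3.W
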