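import Pool.Agent.H951R3.W.W2

set_option autoImplicit false

/-!
Counting integer vectors at which a form is small with respect to `S` and the real place.
-/

namespace Pool.Agent.H951R3.W

open Polynomial

lemma eval_bound {n : ℕ} (F : MvPolynomial (Fin n) ℤ) {d : ℕ} (hF : F.IsHomogeneous d) :
    ∃ A : ℝ, 1 ≤ A ∧ ∀ (B : ℝ), 1 ≤ B → ∀ x : Fin n → ℤ, (∀ i, |(x i : ℝ)| ≤ B) →
      |((MvPolynomial.eval x F : ℤ) : ℝ)| ≤ A * B ^ d := by
  classical
  have h0 : (0 : ℝ) ≤ ∑ m ∈ F.support, |((F.coeff m : ℤ) : ℝ)| :=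
    Finset.sum_nonneg fun m _ => abs_nonneg _
  refine ⟨1 + ∑ m ∈ F.support, |((F.coeff m : ℤ) : ℝ)|, by linarith, ?_⟩
  intro B hB x hx
  rw [MvPolynomial.eval_eq']
  push_cast
  refine (Finset.abs_sum_le_sum_abs _ _).trans ?_
  have h1 : ∀ m ∈ F.support, |((F.coeff m : ℤ) : ℝ) * ∏ i, (x i : ℝ) ^ m i| ≤
      |((F.coeff m : ℤ) : ℝ)| * B ^ d := by
    intro m hm
    rw [abs_mul]
    refine mul_le_mul_of_nonneg_left ?_ (abs_nonneg _)
    rw [Finset.abs_prod]
    have hdeg : ∑ i, m i = d := by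
      have h1 := hF (MvPolynomial.mem_support_iff.mp hm)
      rw [← h1]
      simp [Finsupp.weight, Finsupp.linearCombination, Finsupp.sum_fintype]
    rw [← hdeg, ← Finset.prod_pow_eq_pow_sum]
    refine Finset.prod_le_prod (fun i _ => abs_nonneg _) fun i _ => ?_
    rw [abs_pow]
    exact pow_le_pow_left₀ (abs_nonneg _) (hx i) _
  refine (Finset.sum_le_sum h1).trans ?_
  rw [← Finset.sum_mul]
  refine mul_le_mul_of_nonneg_right (by linarith) (by positivity)

lemma exists_dir {n : ℕ} (F : MvPolynomial (Fin n) ℤ) (hF0 : F ≠ 0) {d : ℕ} (hd : 1 ≤ d)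
    (hF : F.IsHomogeneous d) :
    ∃ w : Fin n → ℤ, MvPolynomial.eval w F ≠ 0 ∧ ∃ i, w i ≠ 0 := by
  have h1 : ∃ w : Fin n → ℤ, MvPolynomial.eval w F ≠ 0 := by
    by_contra h
    push Not at h
    exact hF0 (MvPolynomial.funext fun w => by simpa using h w)
  obtain ⟨w, hw⟩ := h1
  refine ⟨w, hw, ?_⟩
  by_contra h
  push Not at h
  have h2 : w = 0 := funext h
  apply hw
  rw [h2, MvPolynomial.eval_zero, MvPolynomial.constantCoeff_eq]
  refine hF.coeff_eq_zero ?_
  simp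
  omega

lemma eval_cast {n : ℕ} (F : MvPolynomial (Fin n) ℤ) (x : Fin n → ℤ) :
    MvPolynomial.eval (fun i => (x i : ℚ)) (MvPolynomial.map (Int.castRingHom ℚ) F) =
      ((MvPolynomial.eval x F : ℤ) : ℚ) := by
  rw [MvPolynomial.eval_map]
  have := MvPolynomial.eval₂_comp (Int.castRingHom ℚ) x F
  rw [eq_intCast] at this
  rw [this]
  rfl

/-- valuations of a bounded integer -/
lemma val_le (p : ℕ) (hp : p.Prime) (n : ℤ) (hn : n ≠ 0) {R : ℝ} (hR : |(n : ℝ)| ≤ R) :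
    |padicValRat p (n : ℚ)| ≤ (Nat.log 2 ⌊R⌋₊ : ℕ) := by
  have : Fact p.Prime := ⟨hp⟩
  rw [padicValRat.of_int]
  have h1 : padicValInt p n ≤ Nat.log 2 ⌊R⌋₊ := by
    refine Nat.le_log_of_pow_le (by norm_num) ?_
    have hn0 : n.natAbs ≠ 0 := Int.natAbs_ne_zero.mpr hn
    have h2 : p ^ padicValInt p n ≤ n.natAbs := by
      refine Nat.le_of_dvd (Nat.pos_of_ne_zero hn0) ?_
      exact pow_padicValNat_dvd
    have h3 : n.natAbs ≤ ⌊R⌋₊ := by
      refine Nat.le_floor ?_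
      rw [Nat.cast_natAbs]
      push_cast
      exact hR
    exact ((Nat.pow_le_pow_left hp.two_le _).trans h2).trans h3
  rw [abs_of_nonneg (by positivity)]
  exact_mod_cast h1

lemma log_pow_le (s : ℕ) {ε : ℝ} (hε : 0 < ε) :
    ∃ C : ℝ, 0 < C ∧ ∀ R : ℝ, 1 ≤ R →
      (2 * ((Nat.log 2 ⌊R⌋₊ : ℕ) : ℝ) + 1) ^ s ≤ C * R ^ (ε * s) := by
  have hl2 : 0 < Real.log 2 := Real.log_pos (by norm_num)
  refine ⟨(2 / (ε * Real.log 2) + 1) ^ s, by positivity, fun R hR => ?_⟩
  set V : ℕ := Nat.log 2 ⌊R⌋₊ with hV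
  have hR0 : 0 < R := by linarith
  have h1 : (2 : ℝ) ^ V ≤ R := by
    have h2 : 2 ^ V ≤ ⌊R⌋₊ := Nat.pow_log_le_self 2 (by
      have : 1 ≤ ⌊R⌋₊ := Nat.le_floor (by simpa using hR)
      omega)
    have h3 : ((2 ^ V : ℕ) : ℝ) ≤ (⌊R⌋₊ : ℝ) := by exact_mod_cast h2
    push_cast at h3
    exact h3.trans (Nat.floor_le hR0.le)
  have h4 : (V : ℝ) * Real.log 2 ≤ Real.log R := by
    rw [← Real.log_pow]
    exact Real.log_le_log (by positivity) h1
  have h5 : ε * (V * Real.log 2) + 1 ≤ R ^ ε := by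
    have h6 := Real.add_one_le_exp (ε * Real.log R)
    have h7 : R ^ ε = Real.exp (ε * Real.log R) := by
      rw [Real.rpow_def_of_pos hR0, mul_comm]
    rw [h7]
    have h8 : ε * (V * Real.log 2) ≤ ε * Real.log R := mul_le_mul_of_nonneg_left h4 hε.le
    linarith
  have h9 : (2 * (V : ℝ) + 1) ≤ (2 / (ε * Real.log 2) + 1) * R ^ ε := by
    have h10 : (1 : ℝ) ≤ R ^ ε := Real.one_le_rpow hR hε.le
    have h11 : (V : ℝ) ≤ R ^ ε / (ε * Real.log 2) := by
      rw [le_div_iff₀ (by positivity)]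
      nlinarith
    calc 2 * (V : ℝ) + 1 ≤ 2 * (R ^ ε / (ε * Real.log 2)) + R ^ ε := by linarith
      _ = (2 / (ε * Real.log 2) + 1) * R ^ ε := by ring
  calc (2 * (V : ℝ) + 1) ^ s ≤ ((2 / (ε * Real.log 2) + 1) * R ^ ε) ^ s :=
        pow_le_pow_left₀ (by positivity) h9 s
    _ = (2 / (ε * Real.log 2) + 1) ^ s * R ^ (ε * s) := by
        rw [mul_pow, Real.rpow_mul hR0.le, Real.rpow_natCast]

theorem main {N : ℕ} (F : MvPolynomial (Fin (N + 1)) ℤ) (hF0 : F ≠ 0) {d : ℕ} (hd : 1 ≤ d)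
    (hF : F.IsHomogeneous d) (S : Finset ℕ) (hS : ∀ p ∈ S, p.Prime) {K0 τ δ : ℝ} (hK0 : 0 < K0)
    (hτ : 0 ≤ τ) (hδ : 0 < δ) :
    ∃ C : ℝ, 0 < C ∧ ∀ B : ℝ, 1 ≤ B → ∀ X : Finset (Fin (N + 1) → ℤ),
      (∀ x ∈ X, (∀ i, |(x i : ℝ)| ≤ B) ∧ MvPolynomial.eval x F ≠ 0 ∧
        |((MvPolynomial.eval x F : ℤ) : ℝ)| *
          ∏ p ∈ S, (padicNorm p ((MvPolynomial.eval x F : ℤ) : ℚ) : ℝ) ≤ K0 * B ^ τ) →
      (X.card : ℝ) ≤ C * B ^ ((N : ℝ) + τ / d + δ) := by
  classical
  obtain ⟨w, hw, i0, hwi⟩ := exists_dir F hF0 hd hF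
  obtain ⟨A, hA1, hA⟩ := eval_bound F hF
  set a : ℚ := ((MvPolynomial.eval w F : ℤ) : ℚ) with ha
  have ha0 : a ≠ 0 := by rw [ha]; exact_mod_cast hw
  obtain ⟨C1, hC1, hline⟩ := line_count S hS hd ha0
  have hdR : (0 : ℝ) < d := by exact_mod_cast hd
  set s : ℕ := S.card with hs
  set ε : ℝ := δ / (d * (s + 1)) with hε
  have hε0 : 0 < ε := by positivity
  obtain ⟨C2, hC2, hlog⟩ := log_pow_le s hε0
  set W : ℕ := Finset.univ.sup (fun i => (w i).natAbs) with hW
  have hWi : ∀ i, |(w i : ℝ)| ≤ W := by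
    intro i
    have : (w i).natAbs ≤ W := Finset.le_sup (f := fun i => (w i).natAbs) (Finset.mem_univ i)
    have h2 : (((w i).natAbs : ℕ) : ℝ) ≤ (W : ℝ) := by exact_mod_cast this
    rw [Nat.cast_natAbs] at h2
    push_cast at h2
    exact h2
  set w0 : ℕ := (w i0).natAbs with hw0
  have hw0pos : 0 < w0 := Int.natAbs_pos.mpr hwi
  set CY : ℝ := w0 * (2 * (1 + 2 * W) + 1) ^ N with hCY
  set C3 : ℝ := C1 * (C2 * A ^ (ε * s)) * (1 + K0 ^ ((1 : ℝ) / d)) with hC3
  have hA0 : 0 < A := by linarith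
  refine ⟨CY * C3, by positivity, fun B hB X hX => ?_⟩
  have hB0 : 0 < B := by linarith
  -- the decomposition
  set tv : (Fin (N + 1) → ℤ) → ℤ := fun x => x i0 / w i0 with htv
  set yv : (Fin (N + 1) → ℤ) → (Fin (N + 1) → ℤ) := fun x i => x i - tv x * w i with hyv
  set R : ℤ := ⌊(1 + 2 * (W : ℝ)) * B⌋ with hR
  set Y : Finset (Fin (N + 1) → ℤ) :=
    Fintype.piFinset (fun i => if i = i0 then Finset.Ico (0 : ℤ) w0 else Finset.Icc (-R) R) with hY
  have hmaps : ∀ x ∈ X, yv x ∈ Y := by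
    intro x hx
    rw [hY, Fintype.mem_piFinset]
    intro i
    have hxB := (hX x hx).1
    split_ifs with hi
    · subst hi
      have h1 : yv x i = x i % w i := by
        rw [hyv]
        simp only [htv]
        rw [Int.emod_def, mul_comm]
      rw [h1, Finset.mem_Ico]
      refine ⟨Int.emod_nonneg _ hwi, ?_⟩
      have := Int.emod_lt_abs (x i) hwi
      rw [hw0]
      simpa using this
    · -- |tv x| ≤ B + 1
      have h2 : |((tv x : ℤ) : ℝ)| ≤ 2 * B := by
        have h3 : |tv x| * w0 ≤ |x i0| + w0 := by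
          have h4 : tv x * w i0 = x i0 - x i0 % w i0 := by
            have := Int.emod_add_mul_ediv (x i0) (w i0)
            simp only [htv]
            linarith [mul_comm (w i0) (x i0 / w i0)]
          have h5 : |tv x| * |w i0| = |x i0 - x i0 % w i0| := by rw [← abs_mul, h4]
          have h6 : ((w0 : ℕ) : ℤ) = |w i0| := by rw [hw0]; simp
          have h7 := Int.emod_nonneg (x i0) hwi
          have h8 := Int.emod_lt_abs (x i0) hwi
          rw [h6, h5]
          calc |x i0 - x i0 % w i0| ≤ |x i0| + |x i0 % w i0| := abs_sub _ _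
            _ ≤ |x i0| + |w i0| := by rw [abs_of_nonneg h7]; linarith
        have h9 : |((tv x : ℤ) : ℝ)| * w0 ≤ |(x i0 : ℝ)| + w0 := by exact_mod_cast h3
        have h10 : (1 : ℝ) ≤ w0 := by exact_mod_cast hw0pos
        have h11 := hxB i0
        have h12 : 0 ≤ |((tv x : ℤ) : ℝ)| := abs_nonneg _
        by_contra hcon
        push Not at hcon
        nlinarith
      have h13 : |((yv x i : ℤ) : ℝ)| ≤ (1 + 2 * W) * B := by
        have h14 : ((yv x i : ℤ) : ℝ) = (x i : ℝ) - (tv x : ℝ) * (w i : ℝ) := by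
          rw [hyv]; push_cast; ring
        rw [h14]
        calc |(x i : ℝ) - (tv x : ℝ) * (w i : ℝ)| ≤ |(x i : ℝ)| + |(tv x : ℝ) * (w i : ℝ)| :=
              abs_sub _ _
          _ ≤ B + (2 * B) * W := by
              rw [abs_mul]
              refine add_le_add (hxB i) ?_
              exact mul_le_mul h2 (hWi i) (abs_nonneg _) (by positivity)
          _ = (1 + 2 * W) * B := by ring
      rw [Finset.mem_Icc, ← abs_le, hR, Int.le_floor]
      push_cast at h13 ⊢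
      exact h13
  have hYcard : (Y.card : ℝ) ≤ CY * B ^ N := by
    have h1 : Y.card = w0 * (2 * R + 1).toNat ^ N := by
      rw [hY, Fintype.card_piFinset, ← Finset.mul_prod_erase Finset.univ _ (Finset.mem_univ i0)]
      rw [if_pos rfl, Int.card_Ico]
      have e1 : ((w0 : ℤ) - 0).toNat = w0 := by simp
      rw [e1]
      congr 1
      rw [Finset.prod_congr rfl (g := fun _ => (2 * R + 1).toNat)]
      · rw [Finset.prod_const, Finset.card_erase_of_mem (Finset.mem_univ _), Finset.card_univ,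
          Fintype.card_fin]
        rfl
      · intro i hi
        rw [if_neg (Finset.ne_of_mem_erase hi), Int.card_Icc]
        congr 1
        ring
    have hR0 : 0 ≤ R := Int.floor_nonneg.mpr (by positivity)
    have h2 : (((2 * R + 1).toNat : ℕ) : ℝ) ≤ (2 * (1 + 2 * W) + 1) * B := by
      have h3 : (((2 * R + 1).toNat : ℕ) : ℝ) = 2 * (R : ℝ) + 1 := by
        have : (((2 * R + 1).toNat : ℕ) : ℤ) = 2 * R + 1 := Int.toNat_of_nonneg (by omega)
        exact_mod_cast this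
      rw [h3]
      have h4 : (R : ℝ) ≤ (1 + 2 * (W : ℝ)) * B := Int.floor_le _
      nlinarith
    rw [h1]
    push_cast
    rw [hCY, mul_assoc]
    refine mul_le_mul_of_nonneg_left ?_ (by positivity)
    rw [← mul_pow]
    exact pow_le_pow_left₀ (by positivity) h2 N
  -- fibres
  set T : ℝ := K0 * B ^ τ with hT
  have hT0 : 0 ≤ T := by positivity
  set V : ℕ := Nat.log 2 ⌊A * B ^ d⌋₊ with hV
  set Mr : ℝ := C1 * (2 * V + 1) ^ s * (1 + T ^ ((1 : ℝ) / d)) with hMr
  have hMr0 : 0 ≤ Mr := by positivity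
  have hfib : ∀ y ∈ Y, (X.filter (fun x => yv x = y)).card ≤ ⌊Mr⌋₊ := by
    intro y _
    refine Nat.le_floor ?_
    set Φ := X.filter (fun x => yv x = y) with hΦ
    have hxt : ∀ x ∈ Φ, ∀ i, x i = y i + tv x * w i := by
      intro x hx i
      have h1 : yv x = y := (Finset.mem_filter.mp hx).2
      rw [← h1, hyv]
      ring
    have hinj : Set.InjOn tv (Φ : Set (Fin (N + 1) → ℤ)) := by
      intro x hx x' hx' h
      funext i
      rw [hxt x hx i, hxt x' hx' i, h]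
    set 𝒯 := Φ.image tv with h𝒯
    have hcard : 𝒯.card = Φ.card := Finset.card_image_of_injOn hinj
    rw [← hcard]
    set FQ := MvPolynomial.map (Int.castRingHom ℚ) F with hFQ
    have hFQh : FQ.IsHomogeneous d := hF.map _
    set f : ℚ[X] := lineP FQ (fun i => (y i : ℚ)) (fun i => (w i : ℚ)) with hf
    obtain ⟨hdeg, hcoef⟩ := lineP_degree FQ hFQh (fun i => (y i : ℚ)) (fun i => (w i : ℚ))
    rw [eval_cast] at hcoef
    have hdeg' : f.natDegree = d := by
      refine le_antisymm hdeg ?_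
      refine Polynomial.le_natDegree_of_ne_zero ?_
      rw [hcoef]
      exact ha0
    have hlead : f.leadingCoeff = a := by
      rw [Polynomial.leadingCoeff, hdeg', hcoef]
    have hev : ∀ x ∈ Φ, f.eval (tv x : ℚ) = ((MvPolynomial.eval x F : ℤ) : ℚ) := by
      intro x hx
      rw [hf, eval_lineP, ← eval_cast]
      congr 2
      funext i
      rw [hxt x hx i]
      push_cast
      ring
    refine hline f hdeg' hlead T V hT0 𝒯 ?_ ?_ ?_
    · intro t ht
      obtain ⟨x, hx, rfl⟩ := Finset.mem_image.mp ht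
      rw [hev x hx]
      exact_mod_cast (hX x (Finset.mem_filter.mp hx).1).2.1
    · intro t ht
      obtain ⟨x, hx, rfl⟩ := Finset.mem_image.mp ht
      rw [hev x hx]
      have := (hX x (Finset.mem_filter.mp hx).1).2.2
      push_cast at this ⊢
      exact this
    · intro t ht p hp
      obtain ⟨x, hx, rfl⟩ := Finset.mem_image.mp ht
      rw [hev x hx]
      have hxX := hX x (Finset.mem_filter.mp hx).1
      exact_mod_cast val_le p (hS p hp) _ hxX.2.1 (hA B hB x hxX.1)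
  have hcount := Finset.card_le_mul_card_image_of_maps_to (s := X) (t := Y) (f := yv) hmaps _ hfib
  have h1 : (X.card : ℝ) ≤ ⌊Mr⌋₊ * Y.card := by exact_mod_cast hcount
  have h2 : (X.card : ℝ) ≤ Mr * (CY * B ^ N) :=
    h1.trans (mul_le_mul (Nat.floor_le hMr0) hYcard (by positivity) hMr0)
  -- the size of `Mr`
  have h3 : ((2 : ℝ) * V + 1) ^ s ≤ (C2 * A ^ (ε * s)) * B ^ δ := by
    have hAB : 1 ≤ A * B ^ d := one_le_mul_of_one_le_of_one_le hA1 (one_le_pow₀ hB)
    have h4 := hlog (A * B ^ d) hAB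
    refine h4.trans ?_
    rw [Real.mul_rpow hA0.le (by positivity), mul_assoc]
    refine mul_le_mul_of_nonneg_left ?_ hC2.le
    refine mul_le_mul_of_nonneg_left ?_ (by positivity)
    rw [← Real.rpow_natCast B d, ← Real.rpow_mul hB0.le]
    refine Real.rpow_le_rpow_of_exponent_le hB ?_
    rw [hε]
    have h5 : (d : ℝ) * (δ / (d * (s + 1)) * s) = δ * (s / (s + 1)) := by
      field_simp
    rw [h5]
    have h6 : (s : ℝ) / (s + 1) ≤ 1 := by
      rw [div_le_one (by positivity)]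
      linarith
    nlinarith
  have h7 : 1 + T ^ ((1 : ℝ) / d) ≤ (1 + K0 ^ ((1 : ℝ) / d)) * B ^ (τ / d) := by
    rw [hT, Real.mul_rpow hK0.le (by positivity), ← Real.rpow_mul hB0.le]
    have h8 : τ * (1 / (d : ℝ)) = τ / d := by ring
    rw [h8]
    have h9 : (1 : ℝ) ≤ B ^ (τ / d) := Real.one_le_rpow hB (by positivity)
    linarith
  have h10 : Mr ≤ C3 * (B ^ δ * B ^ (τ / d)) := by
    rw [hMr, hC3]
    calc C1 * (2 * (V : ℝ) + 1) ^ s * (1 + T ^ ((1 : ℝ) / d))
        ≤ C1 * ((C2 * A ^ (ε * s)) * B ^ δ) * ((1 + K0 ^ ((1 : ℝ) / d)) * B ^ (τ / d)) := by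
          refine mul_le_mul ?_ h7 (by positivity) (by positivity)
          exact mul_le_mul_of_nonneg_left h3 hC1.le
      _ = C1 * (C2 * A ^ (ε * s)) * (1 + K0 ^ ((1 : ℝ) / d)) * (B ^ δ * B ^ (τ / d)) := by ring
  calc (X.card : ℝ) ≤ Mr * (CY * B ^ N) := h2
    _ ≤ (C3 * (B ^ δ * B ^ (τ / d))) * (CY * B ^ N) :=
        mul_le_mul_of_nonneg_right h10 (by positivity)
    _ = CY * C3 * B ^ ((N : ℝ) + τ / d + δ) := by
        rw [Real.rpow_add hB0, Real.rpow_add hB0, Real.rpow_natCast]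
        ring

end Pool.Agent.H951R3.W
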